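import Pool.Agent.KT3.StmtsM
import Pool.Agent.Helper69_PFJ.Lsc
import Pool.Agent.Helper10_PFJ.LSF

/-!
# KT3 squad (MP_e54c4c_gt): row ANC (the class AN is closed)
-/

set_option autoImplicit false

open Matrix Filter Topology

namespace Pool.Agent.KT3.H12

open Pool.Agent.PFS Pool.Agent.PFJ Pool.Agent.NBT Pool.Agent.KT3

/-- **Row ANC.** -/
theorem anc (wic : WicStmt) (lfc : LfcStmt) (lfm : LfmStmt) (pjl : PjlStmt) : AncStmt := by
  intro n C Γ d q h3 x N w han hx hsum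
  obtain ⟨θ, N', hθ, hlim, hdim⟩ := Pool.Agent.PFJ.H69.lsc n N
  have hwi := (wic n C Γ 3 I01 d h3.toHI x w (fun m => (han m).wl) hx hsum).1
  refine ⟨θ, N', hθ, hlim, ⟨hwi, ?_, ?_, ?_⟩⟩
  · rw [← hdim 0]
    exact (han (θ 0)).cod
  · exact hlim.2 id (fun m => x (θ m) 1) (w 1) strictMono_id (fun m => (han (θ m)).mem)
      ((hx 1).comp hθ.tendsto_atTop)
  · intro y hy
    obtain ⟨z, hz, hev⟩ := lfc n C Γ d h3 (fun m => x (θ m)) w (fun m => (han (θ m)).wl) hwi
      (fun i => (hx i).comp hθ.tendsto_atTop) y hy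
    obtain ⟨M₀, hM₀⟩ := eventually_atTop.1 hev
    have hsh : StrictMono (fun m : ℕ => m + M₀) := fun a b hab => Nat.add_lt_add_right hab M₀
    have hleaf : ∀ m, Lf C (x (θ (m + M₀))) (z (m + M₀)) := fun m => hM₀ (m + M₀) (by omega)
    choose p hp using fun m => (han (θ (m + M₀))).prj (z (m + M₀)) (hleaf m)
    have hlim' : LimS (fun m => N (θ (m + M₀))) N' :=
      (Pool.Agent.PFJ.H10.lsf n).1 (fun m => N (θ m)) N' (fun m => m + M₀) hlim hsh
    have hθ' : Tendsto (fun m => θ (m + M₀)) atTop atTop :=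
      hθ.tendsto_atTop.comp hsh.tendsto_atTop
    have hin : y + w 2 + w 1 ∈ C := by
      have hpes := ((lfm n C Γ d h3 w hwi).2 y hy).1.pes.1.pos (fun _ => 1) (fun _ => one_pos)
      have : ∑ i, (1 : ℝ) • up w y i = y + w 2 + w 1 := by
        rw [Fin.sum_univ_three]
        simp [up, Function.update]
        abel
      rwa [this] at hpes
    obtain ⟨_, p', _, hp', _⟩ := pjl n C h3.toHI.toHK.toCC.toPCone
      (fun m => N (θ (m + M₀))) N' hlim'
      (fun m => z (m + M₀)) (fun m => x (θ (m + M₀)) 2) (fun m => x (θ (m + M₀)) 1) y (w 2) (w 1)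
      (hz.comp hsh.tendsto_atTop) ((hx 2).comp hθ') ((hx 1).comp hθ') hin
      (fun m => (han (θ (m + M₀))).mem) p hp
    exact ⟨p', hp'⟩

end Pool.Agent.KT3.H12
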